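import Mathlib
import Pool.Agent.H251.BP.Comp

/-!
# Divisibility of the binary partition function: all moduli not divisible by eight

For every `h` with `8 ∤ h` there are infinitely many `n` such that `h` divides the number of
partitions of `n` into powers of two.
-/

namespace Pool.Agent.Results.MP_6550b3_nt.AllModuli

open Pool.Agent.TH76.BinPart Pool.Agent.H251.BP

theorem result :
    ∀ h : ℕ, ¬ 8 ∣ h →
      {n : ℕ | h ∣ Nat.card {π : Nat.Partition n // ∀ x ∈ π.parts, ∃ k : ℕ, x = 2 ^ k}}.Infinite := by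
  intro h h8
  have h0 : h ≠ 0 := by
    rintro rfl
    exact h8 (dvd_zero 8)
  obtain ⟨k, o, ho, rfl⟩ := Nat.exists_eq_two_pow_mul_odd h0
  have hk : k ≤ 2 := by
    by_contra hcon
    apply h8
    refine dvd_mul_of_dvd_left ?_ _
    have : (2:ℕ)^3 ∣ 2^k := pow_dvd_pow 2 (by omega)
    simpa using this
  have hdvd : 2^k * o ∣ 4 * o := by
    apply mul_dvd_mul_right
    have : (2:ℕ)^k ∣ 2^2 := pow_dvd_pow 2 hk
    simpa using this
  apply Set.infinite_of_not_bddAbove
  rintro ⟨B, hB⟩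
  obtain ⟨n, hn, hz⟩ := exists_dvd ho (B+1)
  have h4 : (2*n) ∈ {n : ℕ | 2^k * o ∣
      Nat.card {π : Nat.Partition n // ∀ x ∈ π.parts, ∃ k : ℕ, x = 2 ^ k}} :=
    hdvd.trans hz
  have := hB h4
  omega

end Pool.Agent.Results.MP_6550b3_nt.AllModuli
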